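import Pool.Agent.N488.CB4

/-!
# Mandelbrot percolation: the conformal upper box dimension is almost surely constant

For all `d ≥ 1`, `n ≥ 2` and `0 < p ≤ 1` (in particular for all `n ^ (-d) < p < 1`) there is a real
number `c`, with `0 ≤ c ≤ d`, such that almost every sample `F` of Mandelbrot percolation with
parameters `(d, n, p)` is empty or has conformal upper box dimension equal to `c`.
-/

open MeasureTheory
open Pool.Agent.R671.MP

namespace Pool.Agent.Results.MP_c03e51_gt.AlmostSureConstant

theorem result (d n : ℕ) (hd : 1 ≤ d) (hn : 2 ≤ n) (p : unitInterval) (hp : (0 : ℝ) < p) :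
    ∃ c : ℝ, 0 ≤ c ∧ c ≤ d ∧
      ∀ᵐ ω ∂(law d n p), (F ω).Nonempty → confUpperBoxDim (F ω) = (c : EReal) :=
  Pool.Agent.N488.CB.main_real hd hn p hp

end Pool.Agent.Results.MP_c03e51_gt.AlmostSureConstant
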